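import Pool.Graph.R_pool_sql_team_seeded_b677cdb8.E8helper28.LN.Rel

set_option autoImplicit false
set_option maxHeartbeats 4000000

/-!
# Dilated triples with three arbitrary weights

`W a N F0 F1 F2 e` is the sum of `e(h) F0(n) F1(n + a h) F2(n + 6 h)` over `n, h ≥ 1`, `n + 6 h ≤ N`. It is small as soon as
one of the three functions `F0, F1, F2` is the difference of `Λ` and its sieve model, the other two and `e` being arbitrary
bounded functions: an application of `T4_small` of helper28.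
-/

namespace Pool.Agent.Helper12.DU

open Finset Pool.Agent.H373R2.T7 Pool.Agent.H560R3.GB Pool.Agent.E8helper28.LN
open Pool.Agent.E8helper66.GB (S_U3)
open Pool.Agent.E8helper81.GB (xt xt_out xt_in xt_abs lamz_le_inv)

/-- the form with four weights -/
noncomputable def W (a N : ℕ) (F0 F1 F2 e : ℕ → ℝ) : ℝ :=
  ∑ h ∈ Icc 1 N, ∑ n ∈ Icc 1 N, if n + 6 * h ≤ N then e h * (F0 n * F1 (n + a * h) * F2 (n + 6 * h)) else 0

lemma sg_sum' (M : ℕ) (e : ℕ → ℝ) (Φ : ℤ → ℝ) (t : ℤ) (h1 : 1 ≤ t) (h2 : t ≤ M) (hΦ : ∀ x : ℤ, (M : ℤ) < x → Φ x = 0) :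
    ∑ x ∈ Icc (-(M : ℤ)) M, Φ x * sg M e (x - t) = ∑ h ∈ Icc 1 M, Φ (t + 2 * h) * e h := by
  have e1 := sg_sum M (3 * M) e Φ t (by push_cast; omega) (by push_cast; omega)
  rw [← e1]
  refine sum_subset ?_ ?_
  · intro x hx; rw [mem_Icc] at hx ⊢; push_cast; omega
  · intro x hx hx2
    rw [mem_Icc] at hx hx2
    push_cast at hx
    by_cases h3 : (M : ℤ) < x
    · rw [hΦ x h3, zero_mul]
    · have : sg M e (x - t) = 0 := by
        unfold sg
        rw [if_neg]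
        rintro ⟨-, h5, -⟩
        omega
      rw [this, mul_zero]

lemma form2 (N : ℕ) (F0 F1 F2 e : ℕ → ℝ) :
    T4 N 3 (-2) 0 1 (-1) (xt N F1) (xt N F0) (xt N F2) (sg N e) = W 2 N F0 F1 F2 e := by
  unfold T4 W
  rw [sum_comm]
  have e1 : ∀ y ∈ Icc (-(N : ℤ)) N, ∑ x ∈ Icc (-(N : ℤ)) N,
      xt N F1 x * xt N F0 y * xt N F2 (3 * x + (-2) * y + 0) * sg N e (1 * x + (-1) * y) =
      xt N F0 (y - 0) * ∑ x ∈ Icc (-(N : ℤ)) N, (xt N F1 x * xt N F2 (3 * x + (-2) * y + 0)) * sg N e (x - y) := by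
    intro y _
    rw [mul_sum]
    refine sum_congr rfl fun x _ => ?_
    rw [show 1 * x + -1 * y = x - y by ring, sub_zero]
    ring
  rw [sum_congr rfl e1, supp_sum N N F0 (fun y => ∑ x ∈ Icc (-(N : ℤ)) N,
    (xt N F1 x * xt N F2 (3 * x + (-2) * y + 0)) * sg N e (x - y)) 0 (by omega) (by omega)]
  conv_rhs => rw [sum_comm]
  refine sum_congr rfl fun n hn => ?_
  rw [mem_Icc] at hn
  rw [sg_sum' N e (fun x => xt N F1 x * xt N F2 (3 * x + (-2) * (0 + (n : ℤ)) + 0)) (0 + (n : ℤ)) (by omega) (by omega)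
    (by intro x hx; rw [xt_out N F1 x (by omega), zero_mul]), mul_sum]
  refine sum_congr rfl fun h hh => ?_
  rw [mem_Icc] at hh
  split_ifs with h6
  · rw [xt_nat N F1 (n + 2 * h) (by omega) (by omega) (0 + (n : ℤ) + 2 * h) (by push_cast; ring),
      xt_nat N F2 (n + 6 * h) (by omega) (by omega) (3 * (0 + (n : ℤ) + 2 * h) + (-2) * (0 + (n : ℤ)) + 0) (by push_cast; ring)]
    ring
  · rw [xt_out N F2 (3 * (0 + (n : ℤ) + 2 * h) + (-2) * (0 + (n : ℤ)) + 0) (by omega)]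
    ring

lemma form4 (N : ℕ) (F0 F1 F2 e : ℕ → ℝ) :
    T4 N (-2) 3 0 1 (-1) (xt N F2) (xt N F1) (xt N F0) (sg N e) = W 4 N F0 F1 F2 e := by
  unfold T4 W
  rw [sum_comm]
  have e1 : ∀ y ∈ Icc (-(N : ℤ)) N, ∑ x ∈ Icc (-(N : ℤ)) N,
      xt N F2 x * xt N F1 y * xt N F0 ((-2) * x + 3 * y + 0) * sg N e (1 * x + (-1) * y) =
      ∑ h ∈ Icc 1 N, xt N F2 (y + 2 * h) * xt N F1 y * xt N F0 (y - 4 * h) * e h := by
    intro y hy
    rw [mem_Icc] at hy
    by_cases hy2 : 1 ≤ y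
    · have := sg_sum' N e (fun x => xt N F2 x * xt N F1 y * xt N F0 ((-2) * x + 3 * y + 0)) y hy2 hy.2
        (by intro x hx; rw [xt_out N F2 x (by omega)]; ring)
      rw [sum_congr rfl fun x _ => show xt N F2 x * xt N F1 y * xt N F0 ((-2) * x + 3 * y + 0) * sg N e (1 * x + (-1) * y) =
        (fun x => xt N F2 x * xt N F1 y * xt N F0 ((-2) * x + 3 * y + 0)) x * sg N e (x - y) by
          rw [show 1 * x + -1 * y = x - y by ring], this]
      refine sum_congr rfl fun h _ => ?_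
      rw [show (-2) * (y + 2 * (h : ℤ)) + 3 * y + 0 = y - 4 * h by ring]
    · have z : xt N F1 y = 0 := xt_out N F1 y (by omega)
      simp [z]
  rw [sum_congr rfl e1, sum_comm]
  refine sum_congr rfl fun h hh => ?_
  rw [mem_Icc] at hh
  have e3 : ∑ y ∈ Icc (-(N : ℤ)) N, xt N F2 (y + 2 * h) * xt N F1 y * xt N F0 (y - 4 * h) * e h =
      ∑ y ∈ Icc (-((5 * N : ℕ) : ℤ)) ((5 * N : ℕ) : ℤ),
        xt N F0 (y - 4 * h) * (fun y : ℤ => xt N F2 (y + 2 * h) * xt N F1 y * e h) y := by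
    have e4 : ∀ y ∈ Icc (-(N : ℤ)) N, xt N F2 (y + 2 * h) * xt N F1 y * xt N F0 (y - 4 * h) * e h =
      xt N F0 (y - 4 * h) * (fun y : ℤ => xt N F2 (y + 2 * h) * xt N F1 y * e h) y := by
      intro y _
      simp only
      ring
    rw [sum_congr rfl e4]
    refine sum_subset ?_ ?_
    · intro x hx; rw [mem_Icc] at hx ⊢; push_cast; omega
    · intro x hx hx2
      rw [mem_Icc] at hx hx2
      simp only
      rw [xt_out N F1 x (by omega)]
      ring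
  have e2 := supp_sum N (5 * N) F0 (fun y : ℤ => xt N F2 (y + 2 * h) * xt N F1 y * e h) (4 * h) (by push_cast; omega)
    (by push_cast; omega)
  rw [e3, e2]
  refine sum_congr rfl fun n hn => ?_
  rw [mem_Icc] at hn
  split_ifs with h6
  · rw [xt_nat N F2 (n + 6 * h) (by omega) (by omega) (4 * (h : ℤ) + n + 2 * h) (by push_cast; ring),
      xt_nat N F1 (n + 4 * h) (by omega) (by omega) (4 * (h : ℤ) + n) (by push_cast; ring)]
    ring
  · rw [xt_out N F2 (4 * (h : ℤ) + n + 2 * h) (by omega)]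
    ring

/-- one uniform function, three arbitrary ones -/
theorem W_small (hU3 : S_U3) (U : ℕ) : ∃ B : ℕ, ∀ K : ℕ, ∃ N₀ : ℕ, ∀ N : ℕ, N₀ ≤ N → ∀ z : ℕ, Real.log N ^ B ≤ z →
    (z : ℝ) ≤ Real.log N ^ K → ∀ a : ℕ, a = 2 ∨ a = 4 → ∀ (f g e : ℕ → ℝ), (∀ x, |f x| ≤ 1) → (∀ x, |g x| ≤ 1) →
    (∀ x, |e x| ≤ 1) → |W a N (dz z) f g e| ≤ (N : ℝ) ^ 2 / Real.log N ^ U ∧
      |W a N f (dz z) g e| ≤ (N : ℝ) ^ 2 / Real.log N ^ U ∧ |W a N f g (dz z) e| ≤ (N : ℝ) ^ 2 / Real.log N ^ U := by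
  obtain ⟨B, hB⟩ := T4_small hU3 U
  refine ⟨B, fun K => ?_⟩
  obtain ⟨N₀, h0⟩ := hB K
  obtain ⟨n1, h1⟩ := ev_L' 1
  refine ⟨N₀ + n1, fun N hN z hz1 hz2 a ha f g e hf hg he => ?_⟩
  have hL := h1 N (by omega)
  have key := h0 N (by omega) z hz1 hz2
  have hL2 : (1 : ℝ) ≤ Real.log N ^ 2 := one_le_pow₀ hL
  have w : ∀ F : ℕ → ℝ, (∀ x, |F x| ≤ 1) → ∀ x, |xt N F x| ≤ Real.log N ^ 2 := fun F hF x =>
    (xt_abs N F 1 zero_le_one (fun x _ => hF x) x).trans hL2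
  have z0 : ∀ (F : ℕ → ℝ) (x : ℤ), x ∉ Icc (-(N : ℤ)) N → xt N F x = 0 := by
    intro F x hx
    rw [mem_Icc] at hx
    exact xt_out N F x (by omega)
  have hcop : IsCoprime (1 : ℤ) (-1) := isCoprime_one_left
  rcases ha with rfl | rfl
  · rw [← form2, ← form2, ← form2]
    exact ⟨(key 3 (-2) 0 1 (-1) (by norm_num) (by norm_num) hcop (by norm_num) (xt N f) (xt N g) (sg N e)
        (w f hf) (w g hg) (sg_abs N e he) (z0 f) (z0 g)).2.1 (by norm_num),
      (key 3 (-2) 0 1 (-1) (by norm_num) (by norm_num) hcop (by norm_num) (xt N f) (xt N g) (sg N e)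
        (w f hf) (w g hg) (sg_abs N e he) (z0 f) (z0 g)).1 (by norm_num),
      (key 3 (-2) 0 1 (-1) (by norm_num) (by norm_num) hcop (by norm_num) (xt N g) (xt N f) (sg N e)
        (w g hg) (w f hf) (sg_abs N e he) (z0 g) (z0 f)).2.2 (by norm_num)⟩
  · rw [← form4, ← form4, ← form4]
    exact ⟨(key (-2) 3 0 1 (-1) (by norm_num) (by norm_num) hcop (by norm_num) (xt N g) (xt N f) (sg N e)
        (w g hg) (w f hf) (sg_abs N e he) (z0 g) (z0 f)).2.2 (by norm_num),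
      (key (-2) 3 0 1 (-1) (by norm_num) (by norm_num) hcop (by norm_num) (xt N g) (xt N f) (sg N e)
        (w g hg) (w f hf) (sg_abs N e he) (z0 g) (z0 f)).2.1 (by norm_num),
      (key (-2) 3 0 1 (-1) (by norm_num) (by norm_num) hcop (by norm_num) (xt N g) (xt N f) (sg N e)
        (w g hg) (w f hf) (sg_abs N e he) (z0 g) (z0 f)).1 (by norm_num)⟩

end Pool.Agent.Helper12.DU
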