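import Pool.Agent.Helper12.DU.Tas

set_option autoImplicit false
set_option maxHeartbeats 4000000

/-!
# Dilated triples with three arbitrary sets: from `Λ` to primes
-/

namespace Pool.Agent.Helper12.DU

open Finset Pool.Agent.H373R2.T7 Pool.Agent.H560R3.GB Pool.Agent.E8helper28.LN
open Pool.Agent.E8helper66.GB (S_U3)

open Classical in
lemma pair_model (z c : ℕ) (P : Finset (ℕ × ℕ)) :
    ∑ x ∈ P, lamz z (x.1 + c * x.2) =
      ((P.filter (fun x => ∀ p : ℕ, p.Prime → p ≤ z → ¬ p ∣ x.1 + c * x.2)).card : ℝ) / Vz z := by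
  rw [card_filter]
  push_cast
  rw [sum_div]
  refine sum_congr rfl fun x _ => ?_
  unfold lamz
  by_cases h1 : ∀ p ∈ pz z, ¬ p ∣ x.1 + c * x.2
  · rw [if_pos h1, if_pos (fun p hp hpz => h1 p (mem_pz.2 ⟨hpz, hp⟩)), one_div]
  · rw [if_neg h1, if_neg, zero_div]
    intro h3
    apply h1
    intro p hp
    rw [mem_pz] at hp
    exact h3 p hp.2 hp.1

open Classical in
lemma pair_upper (c N : ℕ) (P : Finset (ℕ × ℕ)) (hP : P ⊆ Icc 1 N ×ˢ Icc 1 N) (T l : ℝ) (hT : 1 ≤ T) (hl : 0 ≤ l)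
    (hlT : l ≤ Real.log T) :
    l * ((P.filter (fun x => (x.1 + c * x.2).Prime)).card : ℝ) ≤ ∑ x ∈ P, La (x.1 + c * x.2) + l * (N * T) := by
  rw [card_filter]
  push_cast
  have hT2 : ∑ n ∈ Icc 1 N, (if (n : ℝ) ≤ T then (1 : ℝ) else 0) ≤ T := by
    rw [← sum_filter, sum_const, nsmul_eq_mul, mul_one]
    have h3 : ((Icc 1 N).filter (fun p : ℕ => (p : ℝ) ≤ T)).card ≤ ⌊T⌋₊ := by
      calc _ ≤ (Icc 1 ⌊T⌋₊).card := by
            apply card_le_card
            intro p hp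
            rw [mem_filter, mem_Icc] at hp
            rw [mem_Icc]
            exact ⟨hp.1.1, Nat.le_floor hp.2⟩
        _ = _ := by simp
    have h4 : (((Icc 1 N).filter (fun p : ℕ => (p : ℝ) ≤ T)).card : ℝ) ≤ ⌊T⌋₊ := by exact_mod_cast h3
    exact h4.trans (Nat.floor_le (by linarith))
  have hT3 : ∑ x ∈ P, (if (x.1 : ℝ) ≤ T then (1 : ℝ) else 0) ≤ N * T := by
    calc ∑ x ∈ P, (if (x.1 : ℝ) ≤ T then (1 : ℝ) else 0) ≤ ∑ x ∈ Icc 1 N ×ˢ Icc 1 N, (if (x.1 : ℝ) ≤ T then (1 : ℝ) else 0) := by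
          apply sum_le_sum_of_subset_of_nonneg hP
          intro x _ _
          split_ifs <;> norm_num
      _ = ∑ h ∈ Icc 1 N, ∑ n ∈ Icc 1 N, (if (n : ℝ) ≤ T then (1 : ℝ) else 0) := by rw [sum_product_right]
      _ ≤ ∑ h ∈ Icc 1 N, T := sum_le_sum fun h _ => hT2
      _ = N * T := by rw [sum_const, Nat.card_Icc, nsmul_eq_mul, Nat.add_sub_cancel]
  have hpt : ∀ x ∈ P, l * (if (x.1 + c * x.2).Prime then (1 : ℝ) else 0) ≤
      La (x.1 + c * x.2) + l * (if (x.1 : ℝ) ≤ T then (1 : ℝ) else 0) := by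
    intro x hx
    have hx1 := hP hx
    rw [mem_product, mem_Icc, mem_Icc] at hx1
    have hn1 : (1 : ℝ) ≤ x.1 := by exact_mod_cast hx1.1.1
    have h0 : 0 ≤ La (x.1 + c * x.2) := ArithmeticFunction.vonMangoldt_nonneg
    by_cases hc : (x.1 + c * x.2).Prime
    · rw [if_pos hc]
      by_cases hnT : (x.1 : ℝ) ≤ T
      · rw [if_pos hnT]; linarith
      · rw [if_neg hnT, mul_zero, add_zero, mul_one]
        push Not at hnT
        unfold La
        rw [ArithmeticFunction.vonMangoldt_apply_prime hc]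
        refine (hlT.trans (Real.log_le_log (by linarith) hnT.le)).trans (Real.log_le_log (by linarith) ?_)
        exact_mod_cast Nat.le_add_right x.1 (c * x.2)
    · rw [if_neg hc, mul_zero]
      have h2 : (0 : ℝ) ≤ if (x.1 : ℝ) ≤ T then (1 : ℝ) else 0 := by split_ifs <;> norm_num
      positivity
  rw [mul_sum]
  refine (sum_le_sum hpt).trans ?_
  rw [sum_add_distrib, ← mul_sum]
  have := mul_le_mul_of_nonneg_left hT3 hl
  linarith

open Classical in
lemma pair_lower (c N : ℕ) (P : Finset (ℕ × ℕ)) (hP : P ⊆ Icc 1 N ×ˢ Icc 1 N) (hPN : ∀ x ∈ P, x.1 + c * x.2 ≤ N)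
    (hN : 1 ≤ N) :
    ∑ x ∈ P, La (x.1 + c * x.2) ≤
      Real.log N * ((P.filter (fun x => (x.1 + c * x.2).Prime)).card : ℝ) + N * (2 * √(N : ℝ) * Real.log N) := by
  have hlog : 0 ≤ Real.log N := Real.log_natCast_nonneg N
  have hLI : ∀ m : ℕ, 1 ≤ m → La m = lamI (m : ℤ) := by
    intro m hm
    have := La_lamI m 0 hm
    simpa using this
  have hpp : ∑ x ∈ P, (lamI (((x.1 + c * x.2 : ℕ)) : ℤ) - lamP (((x.1 + c * x.2 : ℕ)) : ℤ)) ≤ N * (2 * √(N : ℝ) * Real.log N) := by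
    have h1 := pp_sum N N 0 hN (by
      intro m hm
      rw [mem_Icc] at hm
      rw [add_zero]
      exact_mod_cast hm.2)
    simp only [add_zero] at h1
    have h2 : ∑ x ∈ P, (lamI (((x.1 + c * x.2 : ℕ)) : ℤ) - lamP (((x.1 + c * x.2 : ℕ)) : ℤ)) =
        ∑ y ∈ P.image (fun x => (x.1 + c * x.2, x.2)), (lamI ((y.1 : ℕ) : ℤ) - lamP ((y.1 : ℕ) : ℤ)) := by
      rw [sum_image]
      intro x _ y _ hxy
      simp only [Prod.mk.injEq] at hxy
      obtain ⟨e1, e2⟩ := hxy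
      rw [e2] at e1
      exact Prod.ext (by omega) e2
    rw [h2]
    calc _ ≤ ∑ y ∈ Icc 1 N ×ˢ Icc 1 N, (lamI ((y.1 : ℕ) : ℤ) - lamP ((y.1 : ℕ) : ℤ)) := by
          apply sum_le_sum_of_subset_of_nonneg
          · intro y hy
            obtain ⟨x, hx, rfl⟩ := mem_image.1 hy
            have hx1 := hP hx
            have hx2 := hPN x hx
            rw [mem_product, mem_Icc, mem_Icc] at hx1 ⊢
            exact ⟨⟨by omega, hx2⟩, hx1.2⟩
          · intro y _ _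
            linarith [lamP_le (y.1 : ℤ)]
      _ = ∑ h ∈ Icc 1 N, ∑ n ∈ Icc 1 N, (lamI (n : ℤ) - lamP (n : ℤ)) := by rw [sum_product_right]
      _ ≤ ∑ h ∈ Icc 1 N, (2 * √(N : ℝ) * Real.log N) := sum_le_sum fun h _ => h1
      _ = _ := by rw [sum_const, Nat.card_Icc, nsmul_eq_mul, Nat.add_sub_cancel]
  rw [card_filter]
  push_cast
  have hpt : ∀ x ∈ P, La (x.1 + c * x.2) ≤ Real.log N * (if (x.1 + c * x.2).Prime then (1 : ℝ) else 0) +
      (lamI (((x.1 + c * x.2 : ℕ)) : ℤ) - lamP (((x.1 + c * x.2 : ℕ)) : ℤ)) := by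
    intro x hx
    have hx1 := hP hx
    rw [mem_product, mem_Icc, mem_Icc] at hx1
    have e := hLI (x.1 + c * x.2) (by omega)
    have hle := lamP_le ((x.1 + c * x.2 : ℕ) : ℤ)
    by_cases hc : (x.1 + c * x.2).Prime
    · rw [if_pos hc, mul_one]
      have : La (x.1 + c * x.2) ≤ Real.log N := by
        unfold La
        refine ArithmeticFunction.vonMangoldt_le_log.trans ?_
        apply Real.log_le_log (by exact_mod_cast (show 0 < x.1 + c * x.2 by omega))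
        exact_mod_cast hPN x hx
      linarith
    · rw [if_neg hc, mul_zero, zero_add]
      have h2 : lamP ((x.1 + c * x.2 : ℕ) : ℤ) = 0 := by
        unfold lamP
        rw [if_neg]
        rw [Int.toNat_natCast]
        exact hc
      rw [h2, sub_zero, ← e]
  refine (sum_le_sum hpt).trans ?_
  rw [sum_add_distrib, ← mul_sum]
  linarith

open Classical in
/-- from `Λ` to primes -/
theorem pair_close (K : ℕ) (ε : ℝ) (hε : 0 < ε) : ∃ N₀ : ℕ, ∀ N : ℕ, N₀ ≤ N → ∀ (z c : ℕ) (P : Finset (ℕ × ℕ)),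
    P ⊆ Icc 1 N ×ˢ Icc 1 N → (∀ x ∈ P, x.1 + c * x.2 ≤ N) →
    |∑ x ∈ P, dz z (x.1 + c * x.2)| ≤ (N : ℝ) ^ 2 / Real.log N ^ K →
    ((P.filter (fun x => ∀ p : ℕ, p.Prime → p ≤ z → ¬ p ∣ x.1 + c * x.2)).card : ℝ) / (Vz z * Real.log N) -
      N ^ 2 / Real.log N ^ K ≤ ((P.filter (fun x => (x.1 + c * x.2).Prime)).card : ℝ) ∧
    ((P.filter (fun x => (x.1 + c * x.2).Prime)).card : ℝ) ≤
      (1 + ε) * (((P.filter (fun x => ∀ p : ℕ, p.Prime → p ≤ z → ¬ p ∣ x.1 + c * x.2)).card : ℝ) / (Vz z * Real.log N)) +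
      N ^ 2 / Real.log N ^ K := by
  obtain ⟨δ, hδ0, hδ1, -, hδb⟩ := choose_delta 0 ε hε
  rw [zero_add, pow_one] at hδb
  have hlim : Filter.Tendsto (fun n : ℕ => (n : ℝ)) Filter.atTop Filter.atTop := tendsto_natCast_atTop_atTop
  have h1 : ∀ᶠ n : ℕ in Filter.atTop, 2 * Real.log n ^ K ≤ (n : ℝ) ^ δ := by
    have h := (isLittleO_log_rpow_rpow_atTop ((K : ℕ) : ℝ) (show (0 : ℝ) < δ by positivity)).bound (show (0 : ℝ) < 1 / 2 by norm_num)
    filter_upwards [hlim.eventually h, hlim.eventually_ge_atTop 1] with n hn hn1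
    have h0 : 0 ≤ Real.log (n : ℝ) := Real.log_nonneg hn1
    rw [Real.norm_of_nonneg (by positivity), Real.norm_of_nonneg (by positivity), Real.rpow_natCast] at hn
    linarith
  obtain ⟨n1, hn1⟩ := Filter.eventually_atTop.1 h1
  obtain ⟨n2, hn2⟩ := ev_L' (2 + 2 / (1 - δ))
  obtain ⟨n3, hn3⟩ := ev_log' K 4
  refine ⟨n1 + n2 + n3 + 3, fun N hN z c P hP hPN hsm => ?_⟩
  have b1 := hn1 N (by omega)
  have b2 := hn2 N (by omega)
  have b3 := hn3 N (by omega)
  have hNr : (3 : ℝ) ≤ N := by exact_mod_cast (show 3 ≤ N by omega)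
  have hN0 : (0 : ℝ) < N := by linarith
  have hd : 0 < 1 - δ := by linarith
  set L := Real.log (N : ℝ) with hLd
  have q1 : 0 < 2 / (1 - δ) := by positivity
  have hL2 : 2 ≤ L := by linarith
  have hL0 : 0 < L := by linarith
  have hdL : 2 ≤ (1 - δ) * L := by
    have h : 2 / (1 - δ) ≤ L := by linarith
    rw [div_le_iff₀ hd] at h
    linarith
  set R : ℝ := ((P.filter (fun x => ∀ p : ℕ, p.Prime → p ≤ z → ¬ p ∣ x.1 + c * x.2)).card : ℝ) with hR
  set Q : ℝ := ((P.filter (fun x => (x.1 + c * x.2).Prime)).card : ℝ) with hQ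
  have hV := Vz_pos z
  have hR0 : 0 ≤ R := Nat.cast_nonneg _
  have hsum : ∑ x ∈ P, dz z (x.1 + c * x.2) = ∑ x ∈ P, La (x.1 + c * x.2) - R / Vz z := by
    rw [hR, ← pair_model, ← sum_sub_distrib]
    rfl
  rw [hsum] at hsm
  obtain ⟨s1, s2⟩ := abs_le.1 hsm
  set w : ℝ := (N : ℝ) ^ 2 / L ^ K with hw
  have hw0 : 0 ≤ w := by positivity
  have hRV : R / Vz z = L * (R / (Vz z * L)) := by field_simp
  set X : ℝ := R / (Vz z * L) with hX
  have hX0 : 0 ≤ X := by positivity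
  rw [hRV] at s1 s2
  constructor
  · have lo := pair_lower c N P hP hPN (by omega)
    rw [← hLd, ← hQ] at lo
    have e1 : N * (2 * √(N : ℝ) * L) ≤ L * (w / 2) := by
      have e2 : 2 * √(N : ℝ) * N ≤ w / 2 := by
        rw [hw, div_div, le_div_iff₀ (by positivity)]
        have e3 : √(N : ℝ) * √(N : ℝ) = N := Real.mul_self_sqrt hN0.le
        calc 2 * √(N : ℝ) * N * (L ^ K * 2) = (4 * L ^ K) * √(N : ℝ) * N := by ring
          _ ≤ √(N : ℝ) * √(N : ℝ) * N := by gcongr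
          _ = N ^ 2 := by rw [e3]; ring
      nlinarith
    have e3 : w ≤ L * (w / 2) := by nlinarith
    have e4 : L * (X - w) ≤ L * Q := by nlinarith
    exact le_of_mul_le_mul_left e4 hL0
  · have up := pair_upper c N P hP ((N : ℝ) ^ (1 - δ)) ((1 - δ) * L)
      (Real.one_le_rpow (by linarith) (by linarith)) (mul_nonneg hd.le hL0.le) (by rw [Real.log_rpow hN0])
    rw [← hQ] at up
    have hs : (N : ℝ) * (N : ℝ) ^ (1 - δ) ≤ w / 2 := by
      rw [hw, div_div, le_div_iff₀ (by positivity)]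
      have e : (N : ℝ) ^ (1 - δ) * (N : ℝ) ^ δ = N := by
        rw [← Real.rpow_add hN0]; norm_num
      calc (N : ℝ) * (N : ℝ) ^ (1 - δ) * (L ^ K * 2) = N * ((N : ℝ) ^ (1 - δ) * (2 * L ^ K)) := by ring
        _ ≤ N * ((N : ℝ) ^ (1 - δ) * (N : ℝ) ^ δ) := by gcongr
        _ = N ^ 2 := by rw [e]; ring
    have e1 : (1 - δ) * L * Q ≤ (1 - δ) * L * ((1 + ε) * X + w) := by
      have e2 : (1 - δ) * L * ((1 + ε) * X + w) = ((1 + ε) * (1 - δ)) * (L * X) + (1 - δ) * L * w := by ring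
      rw [e2]
      have e3 : L * X ≤ ((1 + ε) * (1 - δ)) * (L * X) := by
        have : 0 ≤ L * X := by positivity
        nlinarith
      have e4 : (1 - δ) * L * (N * (N : ℝ) ^ (1 - δ)) ≤ (1 - δ) * L * (w / 2) :=
        mul_le_mul_of_nonneg_left hs (by positivity)
      have e5 : w ≤ (1 - δ) * L * (w / 2) := by nlinarith
      linarith
    exact le_of_mul_le_mul_left e1 (by positivity)

end Pool.Agent.Helper12.DU
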